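import Pool.Agent.H.MP_521f94_lc.D

namespace Pool.Agent.Results.MP_521f94_lc.NPC

open Pool.Agent.Lib.CX Pool.Agent.H.MP_521f94_lc

theorem result {G X : Type} [Group G] [Fintype X] [Enc X] (x : X → G)
    (hx : Subgroup.closure (Set.range x) = ⊤) (hm : IsMulCommutative (commutator G))
    (hn : ¬∃ H : Subgroup G, H.FiniteIndex ∧ Group.IsNilpotent H) : NPComplete (SSP x) := by
  obtain ⟨S, _, q, b, hb, hi⟩ := affine hm
  refine ⟨inNP hb hi, ?_⟩
  obtain ⟨t, a, p, hp, ha, h1, h2⟩ := hardel x hx hb hi hn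
  let L := FractionRing (S ⧸ p)
  let π : S →+* L := (algebraMap (S ⧸ p) L).comp (Ideal.Quotient.mk p)
  have hπ : ∀ r, π r = 0 ↔ r ∈ p := fun r => by
    simp [π, L, Ideal.Quotient.eq_zero_iff_mem]
  obtain ⟨N, -, hN⟩ := kron (μ := π (q t)) ((Group.isUnit t).map ((π : S →* L).comp q)).ne_zero
    fun k hk e => h2 k hk ((hπ _).1 (by simp [e]))
  refine hard (t := t ^ N) (fun g => ?_) hb hi ha π (fun r h => (hπ r).2 (h1 r h)) (by simpa using hN)
  induction (hx ▸ Subgroup.mem_top g : g ∈ Subgroup.closure (Set.range x)) using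
    Subgroup.closure_induction'' with
  | mem _ h => obtain ⟨j, rfl⟩ := h; exact ⟨[(j, true)], by simp [ev]⟩
  | inv_mem _ h => obtain ⟨j, rfl⟩ := h; exact ⟨[(j, false)], by simp [ev]⟩
  | one => exact ⟨[], rfl⟩
  | mul _ _ _ _ h1 h2 => obtain ⟨u, rfl⟩ := h1; obtain ⟨v, rfl⟩ := h2; exact ⟨u ++ v, ev_app _ _⟩

end Pool.Agent.Results.MP_521f94_lc.NPC
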